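import Mathlib

open NumberField IsDedekindDomain
open scoped nonZeroDivisors

namespace Pool.Agent.H955R3.Window

variable {K : Type*} [Field K] [NumberField K]

open Classical in
/-- The multiplicative function `φ` on fractional ideals of `K` with `φ(𝔮) = N𝔮` for the
nonzero primes `𝔮 ≠ 𝔭` and `φ(𝔭) = c`, i.e. `φ(I) = ∏_𝔮 φ(𝔮) ^ v_𝔮(I)`. -/
noncomputable def phi (p : HeightOneSpectrum (𝓞 K)) (c : ℝ)
    (I : FractionalIdeal (𝓞 K)⁰ K) : ℝ :=
  ∏ᶠ q : HeightOneSpectrum (𝓞 K),
    (if q = p then c else (Ideal.absNorm q.asIdeal : ℝ)) ^ FractionalIdeal.count K q I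

open Classical in
/-- The weighted norm `f_{𝔭,c}`. -/
noncomputable def weightedNorm (p : HeightOneSpectrum (𝓞 K)) (c : ℝ) (α : K) : ℝ :=
  if α = 0 then 0 else phi p c (FractionalIdeal.spanSingleton (𝓞 K)⁰ α)

/-- Euclidean functions on a ring of integers, as in the problem. -/
def IsEuclideanFunction (f : 𝓞 K → ℝ) : Prop :=
  (∀ r, 0 ≤ f r) ∧
  (∀ t : ℝ, 0 ≤ t → (Set.range f ∩ Set.Icc 0 t).Finite) ∧
  (∀ r, f r = 0 ↔ r = 0) ∧
  (∀ a b : 𝓞 K, b ≠ 0 → ∃ q : 𝓞 K, f (a - b * q) < f b)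

/-- The Euclidean window of a prime. -/
def window (p : HeightOneSpectrum (𝓞 K)) : Set ℝ :=
  {c : ℝ | 0 < c ∧ IsEuclideanFunction (fun r : 𝓞 K => weightedNorm p c (r : K))}

theorem absNorm_pos (p : HeightOneSpectrum (𝓞 K)) : (0 : ℝ) < Ideal.absNorm p.asIdeal := by
  have : Ideal.absNorm p.asIdeal ≠ 0 := by
    rw [Ne, Ideal.absNorm_eq_zero_iff]
    exact p.ne_bot
  positivity

theorem finprod_absNorm (I : FractionalIdeal (𝓞 K)⁰ K) (hI : I ≠ 0) :
    ∏ᶠ q : HeightOneSpectrum (𝓞 K), (Ideal.absNorm q.asIdeal : ℝ) ^ FractionalIdeal.count K q I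
      = ((FractionalIdeal.absNorm I : ℚ) : ℝ) := by
  have hfin : (Function.mulSupport fun q : HeightOneSpectrum (𝓞 K) =>
      (q.asIdeal : FractionalIdeal (𝓞 K)⁰ K) ^ (FractionalIdeal.count K q I)).Finite := by
    have h := FractionalIdeal.finite_factors I
    rw [Filter.eventually_cofinite] at h
    refine h.subset ?_
    intro q hq h0
    apply hq
    simp [h0]
  have h := FractionalIdeal.finprod_heightOneSpectrum_factorization' K hI
  have h2 : ((FractionalIdeal.absNorm I : ℚ) : ℝ) =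
      (((Rat.castHom ℝ : ℚ →+* ℝ) : ℚ →* ℝ).comp
        ((FractionalIdeal.absNorm : FractionalIdeal (𝓞 K)⁰ K →*₀ ℚ) :
          FractionalIdeal (𝓞 K)⁰ K →* ℚ)) I := rfl
  rw [h2]
  conv_rhs => rw [← h]
  rw [MonoidHom.map_finprod _ hfin]
  apply finprod_congr
  intro q
  simp only [MonoidHom.coe_comp, MonoidHom.coe_coe, Function.comp_apply]
  rw [map_zpow₀, map_zpow₀, FractionalIdeal.coeIdeal_absNorm]
  simp

theorem phi_eq (p : HeightOneSpectrum (𝓞 K)) (c : ℝ) (I : FractionalIdeal (𝓞 K)⁰ K)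
    (hI : I ≠ 0) :
    phi p c I = ((FractionalIdeal.absNorm I : ℚ) : ℝ) *
      (c / Ideal.absNorm p.asIdeal) ^ FractionalIdeal.count K p I := by
  classical
  have hsplit : ∀ q : HeightOneSpectrum (𝓞 K),
      (if q = p then c else (Ideal.absNorm q.asIdeal : ℝ)) ^ FractionalIdeal.count K q I =
      (Ideal.absNorm q.asIdeal : ℝ) ^ FractionalIdeal.count K q I *
      (if q = p then (c / Ideal.absNorm p.asIdeal) ^ FractionalIdeal.count K p I else 1) := by
    intro q
    have hq := (absNorm_pos q).ne'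
    by_cases h : q = p
    · subst h
      simp only [if_true]
      rw [div_zpow, mul_div_cancel₀]
      exact zpow_ne_zero _ hq
    · simp [h]
  unfold phi
  rw [finprod_congr hsplit, finprod_mul_distrib, finprod_absNorm I hI]
  · congr 1
    rw [finprod_eq_single _ p]
    · simp
    · intro q hq; simp [hq]
  · have h := FractionalIdeal.finite_factors I
    rw [Filter.eventually_cofinite] at h
    refine h.subset ?_
    intro q hq h0
    apply hq
    simp [h0]
  · refine (Set.finite_singleton p).subset ?_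
    intro q hq
    by_contra h
    apply hq
    simp only [Set.mem_singleton_iff] at h
    simp [h]

/-- closed form of the weighted norm -/
theorem weightedNorm_eq (p : HeightOneSpectrum (𝓞 K)) (c : ℝ) (α : K) (hα : α ≠ 0) :
    weightedNorm p c α = |((Algebra.norm ℚ α : ℚ) : ℝ)| *
      (c / Ideal.absNorm p.asIdeal) ^
        FractionalIdeal.count K p (FractionalIdeal.spanSingleton (𝓞 K)⁰ α) := by
  unfold weightedNorm
  rw [if_neg hα, phi_eq]
  · congr 1
    rw [FractionalIdeal.absNorm_span_singleton]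
    simp
  · rwa [Ne, FractionalIdeal.spanSingleton_eq_zero_iff]

/-- `v_𝔭` of a nonzero integer. -/
theorem count_nonneg (p : HeightOneSpectrum (𝓞 K)) (r : 𝓞 K) :
    0 ≤ FractionalIdeal.count K p (FractionalIdeal.spanSingleton (𝓞 K)⁰ (r : K)) := by
  have : FractionalIdeal.spanSingleton (𝓞 K)⁰ (r : K) =
      ((Ideal.span {r} : Ideal (𝓞 K)) : FractionalIdeal (𝓞 K)⁰ K) := by
    rw [FractionalIdeal.coeIdeal_span_singleton]
  rw [this]
  exact FractionalIdeal.count_coe_nonneg K p _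

theorem le_count_iff (p : HeightOneSpectrum (𝓞 K)) (r : 𝓞 K) (hr : r ≠ 0) (n : ℕ) :
    (n : ℤ) ≤ FractionalIdeal.count K p (FractionalIdeal.spanSingleton (𝓞 K)⁰ (r : K)) ↔
      r ∈ p.asIdeal ^ n := by
  classical
  have h1 : FractionalIdeal.spanSingleton (𝓞 K)⁰ (r : K) =
      ((Ideal.span {r} : Ideal (𝓞 K)) : FractionalIdeal (𝓞 K)⁰ K) := by
    rw [FractionalIdeal.coeIdeal_span_singleton]
  have hne : (Ideal.span {r} : Ideal (𝓞 K)) ≠ 0 := by
    simpa [Ideal.span_singleton_eq_bot] using hr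
  rw [h1, FractionalIdeal.count_coe K p hne, Nat.cast_le,
    ← Associates.prime_pow_dvd_iff_le (Associates.mk_ne_zero.mpr hne) p.associates_irreducible,
    ← Associates.mk_pow, Associates.mk_le_mk_iff_dvd, Ideal.dvd_span_singleton]

end Pool.Agent.H955R3.Window
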