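import Mathlib
import Pool.Agent.H955R3.WindowA

open NumberField IsDedekindDomain
open scoped nonZeroDivisors

namespace Pool.Agent.H955R3.Window

theorem unit_sub_one_dvd_zpow {R : Type*} [CommRing R] (u : Rˣ) (n : ℤ) :
    ((u : R) - 1) ∣ (((u ^ n : Rˣ) : R) - 1) := by
  have hnat : ∀ k : ℕ, ((u : R) - 1) ∣ (((u ^ (k : ℤ) : Rˣ) : R) - 1) := by
    intro k
    have := sub_dvd_pow_sub_pow (u : R) 1 k
    simpa using this
  obtain ⟨k, rfl | rfl⟩ := n.eq_nat_or_neg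
  · exact hnat k
  · obtain ⟨w, hw⟩ := hnat k
    refine ⟨-((u ^ (-(k : ℤ)) : Rˣ) : R) * w, ?_⟩
    have h1 : ((u ^ (-(k : ℤ)) : Rˣ) : R) * ((u ^ (k : ℤ) : Rˣ) : R) = 1 := by
      rw [← Units.val_mul, ← zpow_add]; simp
    calc ((u ^ (-(k : ℤ)) : Rˣ) : R) - 1
        = -((u ^ (-(k : ℤ)) : Rˣ) : R) * (((u ^ (k : ℤ) : Rˣ) : R) - 1) := by
          rw [mul_sub, neg_mul, neg_mul, h1]; ring
      _ = _ := by rw [hw]; ring

theorem real_b1 (E z : ℝ) (hE : 1 < E) (hz1 : 1 < z) :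
    (E - 1) ^ 2 * (z - 1) ^ 2 < E ^ 3 * (z - 1) ^ 2 := by
  have hw : 0 < z - 1 := by linarith
  apply mul_lt_mul_of_pos_right _ (by positivity)
  have h1 : (E - 1) ^ 2 < E ^ 2 := by
    apply pow_lt_pow_left₀ (by linarith) (by linarith) (by norm_num)
  have h2 : E ^ 2 ≤ E ^ 3 := pow_le_pow_right₀ hE.le (by norm_num)
  linarith

theorem real_b2 (E z : ℝ) (hE : 1 < E) (hz1 : 1 < z) (hz : E ^ 2 ≤ z) :
    (E - 1) ^ 2 * (2 * E * (z - 1) * (z + 1)) ≤ 2 * E ^ 3 * (z - 1) ^ 2 := by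
  have h : (E - 1) ^ 2 * (z + 1) ≤ E ^ 2 * (z - 1) := by
    have h5 : E ^ 2 * (2 * E - 1) ≤ z * (2 * E - 1) :=
      mul_le_mul_of_nonneg_right hz (by linarith)
    have h6 : 0 < (E - 1) * (2 * E ^ 2 - E + 1) := by
      apply mul_pos (by linarith)
      nlinarith
    have e1 : E ^ 2 * (z - 1) - (E - 1) ^ 2 * (z + 1) =
      (z * (2 * E - 1) - E ^ 2 * (2 * E - 1)) + (E - 1) * (2 * E ^ 2 - E + 1) := by ring
    linarith
  have hw : 0 < z - 1 := by linarith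
  have h6 : 0 ≤ 2 * E * (z - 1) := by positivity
  calc (E - 1) ^ 2 * (2 * E * (z - 1) * (z + 1))
      = (2 * E * (z - 1)) * ((E - 1) ^ 2 * (z + 1)) := by ring
    _ ≤ (2 * E * (z - 1)) * (E ^ 2 * (z - 1)) := mul_le_mul_of_nonneg_left h h6
    _ = _ := by ring

theorem real_b3 (E z : ℝ) (hE : 1 < E) (hz1 : 1 < z) (hz : E ^ 2 ≤ z) :
    (E - 1) ^ 2 * (4 * E ^ 2 * z) ≤ E ^ 3 * (z - 1) ^ 2 := by
  have hE0 : 0 < E := by linarith
  have h8 : (E ^ 2 - 1) ^ 2 * z ≤ E ^ 2 * (z - 1) ^ 2 := by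
    have h1 : 0 ≤ (z - E ^ 2) * (E ^ 2 * z - 1) := by
      apply mul_nonneg (by linarith)
      have : 1 ≤ E ^ 2 := one_le_pow₀ hE.le
      have : 1 * 1 ≤ E ^ 2 * z := mul_le_mul this hz1.le (by norm_num) (by positivity)
      linarith
    have e1 : E ^ 2 * (z - 1) ^ 2 - (E ^ 2 - 1) ^ 2 * z = (z - E ^ 2) * (E ^ 2 * z - 1) := by ring
    linarith
  have h9 : 4 * E * ((E - 1) ^ 2 * z) ≤ (E + 1) ^ 2 * ((E - 1) ^ 2 * z) := by
    apply mul_le_mul_of_nonneg_right _ (by positivity)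
    nlinarith [sq_nonneg (E - 1)]
  have h10 : (E + 1) ^ 2 * ((E - 1) ^ 2 * z) = (E ^ 2 - 1) ^ 2 * z := by ring
  have h11 : 4 * E * ((E - 1) ^ 2 * z) ≤ E ^ 2 * (z - 1) ^ 2 := by linarith
  calc (E - 1) ^ 2 * (4 * E ^ 2 * z) = E * (4 * E * ((E - 1) ^ 2 * z)) := by ring
    _ ≤ E * (E ^ 2 * (z - 1) ^ 2) := mul_le_mul_of_nonneg_left h11 hE0.le
    _ = _ := by ring

/-- the purely real inequality -/
theorem real_core (E x y P Q : ℝ) (hE : 1 < E) (hx : 1 ≤ x) (hy : E ≤ y)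
    (hz : E ^ 2 ≤ x * y)
    (h1 : P * (x * y - 1) ≤ (E - 1) * (1 / (2 * E) * (x * y - 1) + x))
    (h2 : Q * (x * y - 1) ≤ (1 - 1 / E) * (1 / (2 * E) * (x * y - 1) + y))
    (hQ : 0 ≤ Q) (h3 : 1 ≤ P * Q) : False := by
  obtain ⟨z, hzdef⟩ : ∃ z, z = x * y := ⟨_, rfl⟩
  rw [← hzdef] at hz h1 h2
  have hE0 : 0 < E := by linarith
  have hz1 : 1 < z := by nlinarith
  have hw : 0 < z - 1 := by linarith
  have hxy : x + y ≤ z + 1 := by nlinarith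
  have hs : 0 < 1 / (2 * E) := by positivity
  have hprod : (z - 1) ^ 2 ≤ (E - 1) * (1 / (2 * E) * (z - 1) + x) *
      ((1 - 1 / E) * (1 / (2 * E) * (z - 1) + y)) := by
    calc (z - 1) ^ 2 = 1 * (z - 1) ^ 2 := by ring
      _ ≤ (P * Q) * (z - 1) ^ 2 := mul_le_mul_of_nonneg_right h3 (by positivity)
      _ = (P * (z - 1)) * (Q * (z - 1)) := by ring
      _ ≤ _ := by
        apply mul_le_mul h1 h2 (by positivity)
        have : 0 < 1 / (2 * E) * (z - 1) := mul_pos hs hw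
        apply mul_nonneg <;> linarith
  have hkey : 4 * E ^ 3 * (z - 1) ^ 2 ≤
      (E - 1) ^ 2 * ((z - 1) ^ 2 + 2 * E * (z - 1) * (x + y) + 4 * E ^ 2 * z) := by
    have e1 : (E - 1) * (1 / (2 * E) * (z - 1) + x) *
      ((1 - 1 / E) * (1 / (2 * E) * (z - 1) + y)) * (4 * E ^ 3) =
      (E - 1) ^ 2 * ((z - 1) ^ 2 + 2 * E * (z - 1) * (x + y) + 4 * E ^ 2 * (x * y)) := by
      field_simp
      ring
    rw [← hzdef] at e1
    calc 4 * E ^ 3 * (z - 1) ^ 2 = (z - 1) ^ 2 * (4 * E ^ 3) := by ring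
      _ ≤ _ := mul_le_mul_of_nonneg_right hprod (by positivity)
      _ = _ := e1
  have hkey2 : 4 * E ^ 3 * (z - 1) ^ 2 ≤
      (E - 1) ^ 2 * ((z - 1) ^ 2 + 2 * E * (z - 1) * (z + 1) + 4 * E ^ 2 * z) := by
    refine hkey.trans ?_
    apply mul_le_mul_of_nonneg_left _ (sq_nonneg _)
    have h4 : 0 ≤ 2 * E * (z - 1) := by positivity
    have h5 := mul_le_mul_of_nonneg_left hxy h4
    linarith
  have b1 := real_b1 E z hE hz1
  have b2 := real_b2 E z hE hz1 hz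
  have b3 := real_b3 E z hE hz1 hz
  have e2 : (E - 1) ^ 2 * ((z - 1) ^ 2 + 2 * E * (z - 1) * (z + 1) + 4 * E ^ 2 * z) =
    (E - 1) ^ 2 * (z - 1) ^ 2 + (E - 1) ^ 2 * (2 * E * (z - 1) * (z + 1)) +
      (E - 1) ^ 2 * (4 * E ^ 2 * z) := by ring
  have e3 : 4 * E ^ 3 * (z - 1) ^ 2 = E ^ 3 * (z - 1) ^ 2 + 2 * E ^ 3 * (z - 1) ^ 2 +
    E ^ 3 * (z - 1) ^ 2 := by ring
  linarith

variable {K : Type*} [Field K] [NumberField K]

theorem one_le_abs_norm (σ τ : K →+* ℝ)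
    (hN : ∀ x : K, ((Algebra.norm ℚ x : ℚ) : ℝ) = σ x * τ x) (r : 𝓞 K) (hr : r ≠ 0) :
    1 ≤ |σ r| * |τ r| := by
  rw [← abs_mul, ← hN]
  have h1 : Algebra.norm ℚ (r : K) = ((Algebra.norm ℤ r : ℤ) : ℚ) := by
    rw [← Algebra.coe_norm_int]
  rw [h1]
  have h2 : Algebra.norm ℤ r ≠ 0 := by
    rwa [Ne, Algebra.norm_eq_zero_iff]
  have h3 : 1 ≤ |Algebra.norm ℤ r| := Int.one_le_abs h2
  have h4 : ((1 : ℤ) : ℝ) ≤ ((|Algebra.norm ℤ r| : ℤ) : ℝ) := Int.cast_le.mpr h3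
  push_cast at h4 ⊢
  exact h4

/-- the key lower bound: the point `1/(ε-1) + 1/(ε^j-1)` stays at distance from the integers -/
theorem key_lower (σ τ : K →+* ℝ)
    (hN : ∀ x : K, ((Algebra.norm ℚ x : ℚ) : ℝ) = σ x * τ x)
    (ε : (𝓞 K)ˣ) (hσ : 1 < σ ((ε : 𝓞 K) : K))
    (hστ : σ ((ε : 𝓞 K) : K) * τ ((ε : 𝓞 K) : K) = 1)
    (hnu : ¬ IsUnit ((ε : 𝓞 K) - 1)) (j : ℕ) (hj : 2 ≤ j) (q : 𝓞 K) :
    1 / (4 * σ ((ε : 𝓞 K) : K) ^ 3) *
      |((Algebra.norm ℚ ((((ε : 𝓞 K) - 1) * ((ε : 𝓞 K) ^ j - 1) : 𝓞 K) : K) : ℚ) : ℝ)| ≤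
    |((Algebra.norm ℚ (((((ε : 𝓞 K) ^ j - 1) + ((ε : 𝓞 K) - 1)) -
      (((ε : 𝓞 K) - 1) * ((ε : 𝓞 K) ^ j - 1)) * q : 𝓞 K) : K) : ℚ) : ℝ)| := by
  by_contra hcon
  push Not at hcon
  set E : ℝ := σ ((ε : 𝓞 K) : K) with hEdef
  have hE0 : 0 < E := by linarith
  have hτ : τ ((ε : 𝓞 K) : K) = E⁻¹ := by
    field_simp
    linarith
  set t : 𝓞 K := (ε : 𝓞 K) ^ j - 1 with ht
  set r : 𝓞 K := (t + ((ε : 𝓞 K) - 1)) - (((ε : 𝓞 K) - 1) * t) * q with hr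
  have hσt : σ (t : K) = E ^ j - 1 := by rw [ht]; simp [hEdef]
  have hτt : τ (t : K) = (E⁻¹) ^ j - 1 := by rw [ht]; simp [hτ]
  have hEj : 1 < E ^ j := one_lt_pow₀ hσ (by omega)
  have mσ : ∀ x y : 𝓞 K, σ ((x * y : 𝓞 K) : K) = σ (x : K) * σ (y : K) := by
    intro x y; simp
  have mτ : ∀ x y : 𝓞 K, τ ((x * y : 𝓞 K) : K) = τ (x : K) * τ (y : K) := by
    intro x y; simp
  have hσb : |σ ((((ε : 𝓞 K) - 1) * t : 𝓞 K) : K)| = (E - 1) * (E ^ j - 1) := by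
    rw [mσ, hσt, abs_of_nonneg]
    · simp [hEdef]
    · have : σ (((ε : 𝓞 K) - 1 : 𝓞 K) : K) = E - 1 := by simp [hEdef]
      rw [this]
      apply mul_nonneg <;> linarith
  have hEinv : E⁻¹ < 1 := inv_lt_one_of_one_lt₀ hσ
  have hEinvj : (E⁻¹) ^ j < 1 := pow_lt_one₀ (by positivity) hEinv (by omega)
  have hτb : |τ ((((ε : 𝓞 K) - 1) * t : 𝓞 K) : K)| = (1 - E⁻¹) * (1 - (E⁻¹) ^ j) := by
    rw [mτ, hτt]
    have : τ (((ε : 𝓞 K) - 1 : 𝓞 K) : K) = E⁻¹ - 1 := by simp [hτ]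
    rw [this, abs_mul, abs_of_neg (by linarith : E⁻¹ - 1 < 0),
      abs_of_neg (by linarith : (E⁻¹) ^ j - 1 < 0)]
    ring
  rw [hN, hN, abs_mul, abs_mul, hσb, hτb] at hcon
  -- X, Y
  set B1 : ℝ := (E - 1) * (E ^ j - 1) with hB1
  set B2 : ℝ := (1 - E⁻¹) * (1 - (E⁻¹) ^ j) with hB2
  have hB1pos : 0 < B1 := by apply mul_pos <;> linarith
  have hB2pos : 0 < B2 := by apply mul_pos <;> linarith
  set s : ℝ := 1 / (2 * E) with hs
  have hs0 : 0 < s := by positivity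
  -- choose the power of the unit
  obtain ⟨i, hi1, hi2⟩ : ∃ i : ℤ, E ^ i * |σ (r : K)| ≤ s * B1 ∧
      (E⁻¹) ^ i * |τ (r : K)| ≤ s * B2 := by
    by_cases hr0 : r = 0
    · refine ⟨0, ?_, ?_⟩
      · rw [hr0]; simp only [map_zero, abs_zero, mul_zero]; positivity
      · rw [hr0]; simp only [map_zero, abs_zero, mul_zero]; positivity
    · have hrK : (r : K) ≠ 0 := by
        intro h
        apply hr0
        exact_mod_cast h
      have hX : 0 < |σ (r : K)| := abs_pos.mpr ((map_ne_zero σ).mpr hrK)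
      obtain ⟨i, hi⟩ := exists_mem_Ico_zpow (x := s * B1 / |σ (r : K)|) (y := E)
        (by positivity) hσ
      refine ⟨i, ?_, ?_⟩
      · have := hi.1
        rwa [le_div_iff₀ hX] at this
      · have h2 := hi.2
        rw [div_lt_iff₀ hX] at h2
        -- s B1 < E^(i+1) |σ r|
        have hEi : 0 < E ^ i := zpow_pos hE0 i
        rw [zpow_add_one₀ hE0.ne'] at h2
        rw [inv_zpow]
        rw [inv_mul_le_iff₀ hEi]
        -- |τ r| ≤ E^i (s B2)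
        have h3 : s * B1 * |τ (r : K)| ≤ s * B1 * (E ^ i * (s * B2)) := by
          have hsB : 0 < s * B1 := by positivity
          calc s * B1 * |τ (r : K)| ≤ (E ^ i * E * |σ (r : K)|) * |τ (r : K)| :=
                mul_le_mul_of_nonneg_right h2.le (abs_nonneg _)
            _ = E ^ i * E * (|σ (r : K)| * |τ (r : K)|) := by ring
            _ ≤ E ^ i * E * (1 / (4 * E ^ 3) * (B1 * B2)) :=
                mul_le_mul_of_nonneg_left hcon.le (by positivity)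
            _ = s * B1 * (E ^ i * (s * B2)) := by
                rw [hs]; field_simp; norm_num
        exact le_of_mul_le_mul_left h3 (by positivity)
  -- decompose i = j l + m
  set m : ℕ := (i % (j : ℤ)).toNat with hm
  set l : ℤ := i / (j : ℤ) with hl
  have hjpos : (0 : ℤ) < (j : ℤ) := by omega
  have hmi : (m : ℤ) = i % (j : ℤ) := by
    rw [hm]; exact Int.toNat_of_nonneg (Int.emod_nonneg _ (by omega))
  have hmj : m < j := by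
    have := Int.emod_lt_of_pos i hjpos
    omega
  have hi_eq : i = (j : ℤ) * l + m := by
    rw [hmi, hl]; exact (Int.mul_ediv_add_emod i j).symm
  obtain ⟨g, hg⟩ := unit_sub_one_dvd_zpow ε i
  obtain ⟨h, hh⟩ := unit_sub_one_dvd_zpow (ε ^ j) l
  -- hh : (ε^j)^l - 1 = (ε^j - 1) * h
  set w : 𝓞 K := g + (ε : 𝓞 K) ^ m * h - ((ε ^ i : (𝓞 K)ˣ) : 𝓞 K) * q with hw
  have hεi : ((ε ^ i : (𝓞 K)ˣ) : 𝓞 K) = (((ε ^ j) ^ l : (𝓞 K)ˣ) : 𝓞 K) * (ε : 𝓞 K) ^ m := by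
    rw [hi_eq, zpow_add, zpow_mul, Units.val_mul]
    simp
  have hdecomp : ((ε ^ i : (𝓞 K)ˣ) : 𝓞 K) * r =
      t * (1 + ((ε : 𝓞 K) - 1) * w) + ((ε : 𝓞 K) - 1) * (ε : 𝓞 K) ^ m := by
    have hh' : (((ε ^ j) ^ l : (𝓞 K)ˣ) : 𝓞 K) = 1 + t * h := by
      rw [ht]
      have := hh
      simp only [Units.val_pow_eq_pow_val] at this
      linear_combination this
    have hg' : ((ε ^ i : (𝓞 K)ˣ) : 𝓞 K) = 1 + ((ε : 𝓞 K) - 1) * g := by
      linear_combination hg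
    have hεi' : ((ε ^ i : (𝓞 K)ˣ) : 𝓞 K) = (1 + t * h) * (ε : 𝓞 K) ^ m := by rw [hεi, hh']
    rw [hr, hw]
    linear_combination t * hg' + ((ε : 𝓞 K) - 1) * hεi'
  -- norms of β
  have hβne : (1 + ((ε : 𝓞 K) - 1) * w) ≠ 0 := by
    intro h0
    apply hnu
    refine isUnit_iff_exists_inv.mpr ⟨-w, ?_⟩
    linear_combination -h0
  have hβ := one_le_abs_norm σ τ hN _ hβne
  set P : ℝ := |σ ((1 + ((ε : 𝓞 K) - 1) * w : 𝓞 K) : K)| with hP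
  set Q : ℝ := |τ ((1 + ((ε : 𝓞 K) - 1) * w : 𝓞 K) : K)| with hQ
  -- images
  have hσi : σ (((ε ^ i : (𝓞 K)ˣ) : 𝓞 K) : K) = E ^ i := by
    have : (((ε ^ i : (𝓞 K)ˣ) : 𝓞 K) : K) = (((ε : 𝓞 K) : K)) ^ i := by
      have h1 : ((Units.map (algebraMap (𝓞 K) K).toMonoidHom (ε ^ i) : Kˣ) : K) =
        ((Units.map (algebraMap (𝓞 K) K).toMonoidHom ε : Kˣ) : K) ^ i := by
        rw [map_zpow, Units.val_zpow_eq_zpow_val]
      exact h1
    rw [this, map_zpow₀]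
  have hτi : τ (((ε ^ i : (𝓞 K)ˣ) : 𝓞 K) : K) = (E⁻¹) ^ i := by
    have : (((ε ^ i : (𝓞 K)ˣ) : 𝓞 K) : K) = (((ε : 𝓞 K) : K)) ^ i := by
      have h1 : ((Units.map (algebraMap (𝓞 K) K).toMonoidHom (ε ^ i) : Kˣ) : K) =
        ((Units.map (algebraMap (𝓞 K) K).toMonoidHom ε : Kˣ) : K) ^ i := by
        rw [map_zpow, Units.val_zpow_eq_zpow_val]
      exact h1
    rw [this, map_zpow₀, hτ]
  have hEm : 1 ≤ E ^ m := one_le_pow₀ hσ.le
  have hjm : E ≤ E ^ (j - m) := by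
    calc E = E ^ 1 := (pow_one E).symm
      _ ≤ E ^ (j - m) := pow_le_pow_right₀ hσ.le (by omega)
  have hxy : E ^ m * E ^ (j - m) = E ^ j := by
    rw [← pow_add]; congr 1; omega
  have hz2 : E ^ 2 ≤ E ^ j := pow_le_pow_right₀ hσ.le hj
  apply real_core E (E ^ m) (E ^ (j - m)) P Q hσ hEm hjm (by rw [hxy]; exact hz2)
  · -- P (E^j - 1) ≤ ...
    rw [hxy]
    have h1 : |σ ((t * (1 + ((ε : 𝓞 K) - 1) * w) : 𝓞 K) : K)| ≤
        E ^ i * |σ (r : K)| + (E - 1) * E ^ m := by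
      have h2 : ((t * (1 + ((ε : 𝓞 K) - 1) * w) : 𝓞 K) : K) =
          (((ε ^ i : (𝓞 K)ˣ) : 𝓞 K) : K) * (r : K) -
          ((((ε : 𝓞 K) - 1) * (ε : 𝓞 K) ^ m : 𝓞 K) : K) := by
        rw [← map_mul (algebraMap (𝓞 K) K), hdecomp, map_add]; ring
      rw [h2, map_sub, map_mul, hσi]
      refine (abs_sub _ _).trans ?_
      rw [abs_mul, abs_of_pos (zpow_pos hE0 i)]
      have h3 : σ ((((ε : 𝓞 K) - 1) * (ε : 𝓞 K) ^ m : 𝓞 K) : K) = (E - 1) * E ^ m := by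
        simp [hEdef]
      have h3' : 0 ≤ (E - 1) * E ^ m := by
        apply mul_nonneg
        · linarith
        · positivity
      rw [h3, abs_of_nonneg h3']
    have hpos1 : 0 < E ^ j - 1 := by linarith
    rw [mσ, hσt, abs_mul, abs_of_pos hpos1, ← hP] at h1
    calc P * (E ^ j - 1) = (E ^ j - 1) * P := by ring
      _ ≤ _ := h1
      _ ≤ s * B1 + (E - 1) * E ^ m := by linarith
      _ = _ := by rw [hB1]; ring
  · rw [hxy]
    have h1 : |τ ((t * (1 + ((ε : 𝓞 K) - 1) * w) : 𝓞 K) : K)| ≤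
        (E⁻¹) ^ i * |τ (r : K)| + (1 - E⁻¹) * (E⁻¹) ^ m := by
      have h2 : ((t * (1 + ((ε : 𝓞 K) - 1) * w) : 𝓞 K) : K) =
          (((ε ^ i : (𝓞 K)ˣ) : 𝓞 K) : K) * (r : K) -
          ((((ε : 𝓞 K) - 1) * (ε : 𝓞 K) ^ m : 𝓞 K) : K) := by
        rw [← map_mul (algebraMap (𝓞 K) K), hdecomp, map_add]; ring
      rw [h2, map_sub, map_mul, hτi]
      refine (abs_sub _ _).trans ?_
      rw [abs_mul, abs_of_pos (zpow_pos (by positivity : 0 < E⁻¹) i)]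
      have h3 : τ ((((ε : 𝓞 K) - 1) * (ε : 𝓞 K) ^ m : 𝓞 K) : K) = -((1 - E⁻¹) * (E⁻¹) ^ m) := by
        simp only [map_mul, map_sub, map_pow, map_one, hτ]; ring
      have h3' : 0 ≤ (1 - E⁻¹) * (E⁻¹) ^ m := by
        apply mul_nonneg
        · linarith
        · positivity
      rw [h3, abs_neg, abs_of_nonneg h3']
    have hneg1 : (E⁻¹) ^ j - 1 < 0 := by linarith
    rw [mτ, hτt, abs_mul, abs_of_neg hneg1, ← hQ] at h1
    have h4 : (1 - (E⁻¹) ^ j) * Q ≤ s * B2 + (1 - E⁻¹) * (E⁻¹) ^ m := by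
      have : -((E⁻¹) ^ j - 1) = 1 - (E⁻¹) ^ j := by ring
      rw [this] at h1
      linarith
    have h5 : E ^ j * ((1 - (E⁻¹) ^ j) * Q) ≤
        E ^ j * (s * B2 + (1 - E⁻¹) * (E⁻¹) ^ m) :=
      mul_le_mul_of_nonneg_left h4 (by positivity)
    have h6 : E ^ j * (E⁻¹) ^ j = 1 := by rw [← mul_pow, mul_inv_cancel₀ hE0.ne', one_pow]
    have h7 : E ^ j * (E⁻¹) ^ m = E ^ (j - m) := by
      rw [← hxy]
      have : E ^ m * (E⁻¹) ^ m = 1 := by rw [← mul_pow, mul_inv_cancel₀ hE0.ne', one_pow]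
      linear_combination E ^ (j - m) * this
    calc Q * (E ^ j - 1) = E ^ j * ((1 - (E⁻¹) ^ j) * Q) := by linear_combination Q * h6
      _ ≤ _ := h5
      _ = (1 - 1 / E) * (1 / (2 * E) * (E ^ j - 1) + E ^ (j - m)) := by
        rw [hB2, hs, ← h7]
        rw [one_div E]
        linear_combination (1 - E⁻¹) * (1 / (2 * E)) * (-h6)
  · exact abs_nonneg _
  · exact hβ

end Pool.Agent.H955R3.Window
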