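import Mathlib
import Pool.Agent.H955R3.WindowB

open NumberField IsDedekindDomain
open scoped nonZeroDivisors

namespace Pool.Agent.H955R3.Window

variable {K : Type*} [Field K] [NumberField K]

theorem exists_pow_sub_one_mem (ε : (𝓞 K)ˣ) (I : Ideal (𝓞 K)) (hI : I ≠ ⊥) :
    ∃ j : ℕ, 2 ≤ j ∧ (ε : 𝓞 K) ^ j - 1 ∈ I := by
  have : Finite (𝓞 K ⧸ I) := Ideal.finiteQuotientOfFreeOfNeBot I hI
  have : Finite (𝓞 K ⧸ I)ˣ := inferInstance
  set u : (𝓞 K ⧸ I)ˣ := Units.map (Ideal.Quotient.mk I).toMonoidHom ε with hu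
  have hfin : IsOfFinOrder u := isOfFinOrder_of_finite u
  have hpos : 0 < orderOf u := hfin.orderOf_pos
  refine ⟨2 * orderOf u, by omega, ?_⟩
  rw [← Ideal.Quotient.eq_zero_iff_mem, map_sub, map_pow, map_one]
  have h1 : u ^ (2 * orderOf u) = 1 := by
    rw [mul_comm, pow_mul, pow_orderOf_eq_one, one_pow]
  have h2 := congrArg Units.val h1
  rw [Units.val_pow_eq_pow_val] at h2
  simp only [hu, Units.val_one] at h2
  have h3 : ((Units.map (Ideal.Quotient.mk I).toMonoidHom ε : (𝓞 K ⧸ I)ˣ) : 𝓞 K ⧸ I) =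
    Ideal.Quotient.mk I (ε : 𝓞 K) := rfl
  rw [h3] at h2
  rw [h2, sub_self]

/-- **Nothing below the norm.**  If `K` has two real places `σ, τ` with `N = σ τ` and a unit `ε`
with `σ ε > 1`, `σ ε * τ ε = 1` and `ε - 1` not a unit, then every `c` in the Euclidean window of
a prime `𝔭` satisfies `c ≥ N𝔭`. -/
theorem absNorm_le_of_mem_window (σ τ : K →+* ℝ)
    (hN : ∀ x : K, ((Algebra.norm ℚ x : ℚ) : ℝ) = σ x * τ x)
    (ε : (𝓞 K)ˣ) (hσ : 1 < σ ((ε : 𝓞 K) : K))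
    (hστ : σ ((ε : 𝓞 K) : K) * τ ((ε : 𝓞 K) : K) = 1)
    (hnu : ¬ IsUnit ((ε : 𝓞 K) - 1))
    (p : HeightOneSpectrum (𝓞 K)) (c : ℝ) (hc : c ∈ window p) :
    (Ideal.absNorm p.asIdeal : ℝ) ≤ c := by
  by_contra hlt
  push Not at hlt
  obtain ⟨hc0, -, -, -, heuc⟩ := hc
  set P : ℝ := (Ideal.absNorm p.asIdeal : ℝ) with hP
  have hP0 : 0 < P := absNorm_pos p
  set ρ : ℝ := c / P with hρ
  have hρ0 : 0 < ρ := by positivity
  have hρ1 : ρ < 1 := by rw [hρ, div_lt_one hP0]; exact hlt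
  set E : ℝ := σ ((ε : 𝓞 K) : K) with hE
  have hE0 : 0 < E := by linarith
  obtain ⟨k, hk⟩ := exists_pow_lt_of_lt_one (show (0 : ℝ) < 1 / (4 * E ^ 3) by positivity) hρ1
  have hε1 : (ε : 𝓞 K) - 1 ≠ 0 := by
    intro h
    have h1 : (ε : 𝓞 K) = 1 := by linear_combination h
    rw [hE, h1] at hσ
    simp at hσ
  set v : 𝓞 K → ℤ := fun r => FractionalIdeal.count K p
    (FractionalIdeal.spanSingleton (𝓞 K)⁰ (r : K)) with hv
  set e : ℕ := (v ((ε : 𝓞 K) - 1)).toNat with he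
  have he' : (e : ℤ) = v ((ε : 𝓞 K) - 1) := Int.toNat_of_nonneg (count_nonneg p _)
  have hIne : p.asIdeal ^ (e + 1 + k) ≠ ⊥ := by
    rw [← Ideal.zero_eq_bot]
    exact pow_ne_zero _ p.ne_bot
  obtain ⟨j, hj, hjmem⟩ := exists_pow_sub_one_mem ε _ hIne
  set t : 𝓞 K := (ε : 𝓞 K) ^ j - 1 with ht
  have ht0 : t ≠ 0 := by
    intro h
    have h1 : (ε : 𝓞 K) ^ j = 1 := by rw [ht] at h; linear_combination h
    have h2 : σ (((ε : 𝓞 K) ^ j : 𝓞 K) : K) = E ^ j := by simp [hE]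
    rw [h1] at h2
    have h3 : 1 < E ^ j := one_lt_pow₀ hσ (by omega)
    simp at h2
    linarith
  set b : 𝓞 K := ((ε : 𝓞 K) - 1) * t with hb
  have hb0 : b ≠ 0 := mul_ne_zero hε1 ht0
  obtain ⟨q, hq⟩ := heuc (t + ((ε : 𝓞 K) - 1)) b hb0
  have hkey := key_lower σ τ hN ε hσ hστ hnu j hj q
  rw [← ht, ← hb, ← hE] at hkey
  set r : 𝓞 K := t + ((ε : 𝓞 K) - 1) - b * q with hr
  have hNb : 0 < |((Algebra.norm ℚ (b : K) : ℚ) : ℝ)| := by
    rw [abs_pos]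
    have : Algebra.norm ℚ (b : K) ≠ 0 := by
      rw [Ne, Algebra.norm_eq_zero_iff]
      intro h
      apply hb0
      exact_mod_cast h
    exact_mod_cast this
  have hNr : 0 < |((Algebra.norm ℚ (r : K) : ℚ) : ℝ)| := by
    have : 0 < 1 / (4 * E ^ 3) * |((Algebra.norm ℚ (b : K) : ℚ) : ℝ)| := by positivity
    linarith
  have hr0 : r ≠ 0 := by
    intro h
    rw [h] at hNr
    simp at hNr
  have hrK : (r : K) ≠ 0 := by
    intro h; apply hr0; exact_mod_cast h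
  have hbK : (b : K) ≠ 0 := by
    intro h; apply hb0; exact_mod_cast h
  simp only at hq
  rw [weightedNorm_eq p c _ hrK, weightedNorm_eq p c _ hbK, ← hP, ← hρ] at hq
  -- valuations
  have htmem : t ∈ p.asIdeal ^ (e + 1) :=
    Ideal.pow_le_pow_right (by omega : e + 1 ≤ e + 1 + k) hjmem
  have hvr : v r ≤ e := by
    by_contra hcon
    push Not at hcon
    have h1 : ((e + 1 : ℕ) : ℤ) ≤ v r := by push_cast; omega
    have h2 := (le_count_iff p r hr0 (e + 1)).mp h1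
    have h3 : b * q ∈ p.asIdeal ^ (e + 1) := by
      apply Ideal.mul_mem_right
      rw [hb]
      exact Ideal.mul_mem_left _ _ htmem
    have h4 : ((ε : 𝓞 K) - 1) ∈ p.asIdeal ^ (e + 1) := by
      have h5 : ((ε : 𝓞 K) - 1) = (r + b * q) - t := by rw [hr]; ring
      rw [h5]
      exact Ideal.sub_mem _ (Ideal.add_mem _ h2 h3) htmem
    have h6 := (le_count_iff p _ hε1 (e + 1)).mpr h4
    have h7 : ((e + 1 : ℕ) : ℤ) ≤ v ((ε : 𝓞 K) - 1) := h6
    rw [← he'] at h7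
    push_cast at h7
    omega
  have hvb : ((e + (e + 1 + k) : ℕ) : ℤ) ≤ v b := by
    apply (le_count_iff p b hb0 _).mpr
    rw [pow_add, hb]
    apply Ideal.mul_mem_mul _ hjmem
    apply (le_count_iff p _ hε1 e).mp
    rw [he']
  have h1 : ρ ^ (e : ℤ) ≤ ρ ^ (v r) := zpow_le_zpow_right_of_le_one₀ hρ0 hρ1.le hvr
  have h2 : ρ ^ (v b) ≤ ρ ^ (((e + (e + 1 + k) : ℕ) : ℤ)) :=
    zpow_le_zpow_right_of_le_one₀ hρ0 hρ1.le hvb
  have hρe : 0 < ρ ^ e := by positivity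
  have h3 : |((Algebra.norm ℚ (r : K) : ℚ) : ℝ)| * ρ ^ e <
      |((Algebra.norm ℚ (b : K) : ℚ) : ℝ)| * (ρ ^ e * ρ ^ k) := by
    calc |((Algebra.norm ℚ (r : K) : ℚ) : ℝ)| * ρ ^ e
        ≤ |((Algebra.norm ℚ (r : K) : ℚ) : ℝ)| * ρ ^ (v r) := by
          apply mul_le_mul_of_nonneg_left _ hNr.le
          rw [← zpow_natCast]; exact h1
      _ < |((Algebra.norm ℚ (b : K) : ℚ) : ℝ)| * ρ ^ (v b) := hq
      _ ≤ |((Algebra.norm ℚ (b : K) : ℚ) : ℝ)| * ρ ^ (((e + (e + 1 + k) : ℕ) : ℤ)) :=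
          mul_le_mul_of_nonneg_left h2 hNb.le
      _ ≤ |((Algebra.norm ℚ (b : K) : ℚ) : ℝ)| * (ρ ^ e * ρ ^ k) := by
          apply mul_le_mul_of_nonneg_left _ hNb.le
          rw [zpow_natCast, ← pow_add]
          apply pow_le_pow_of_le_one hρ0.le hρ1.le
          omega
  have h4 : |((Algebra.norm ℚ (r : K) : ℚ) : ℝ)| < |((Algebra.norm ℚ (b : K) : ℚ) : ℝ)| * ρ ^ k := by
    have h5 : |((Algebra.norm ℚ (r : K) : ℚ) : ℝ)| * ρ ^ e <
      (|((Algebra.norm ℚ (b : K) : ℚ) : ℝ)| * ρ ^ k) * ρ ^ e := by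
      calc _ < _ := h3
        _ = _ := by ring
    exact lt_of_mul_lt_mul_right h5 hρe.le
  have h6 : |((Algebra.norm ℚ (b : K) : ℚ) : ℝ)| * ρ ^ k <
      |((Algebra.norm ℚ (b : K) : ℚ) : ℝ)| * (1 / (4 * E ^ 3)) :=
    mul_lt_mul_of_pos_left hk hNb
  linarith

/-- If the norm is Euclidean then `c = N𝔭` lies in the window. -/
theorem absNorm_mem_window
    (heuc : ∀ a b : 𝓞 K, b ≠ 0 → ∃ q : 𝓞 K,
      |Algebra.norm ℤ (a - b * q)| < |Algebra.norm ℤ b|)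
    (p : HeightOneSpectrum (𝓞 K)) : (Ideal.absNorm p.asIdeal : ℝ) ∈ window p := by
  have hP0 := absNorm_pos p
  have hw : ∀ r : 𝓞 K, weightedNorm p (Ideal.absNorm p.asIdeal : ℝ) (r : K) =
      ((|Algebra.norm ℤ r| : ℤ) : ℝ) := by
    intro r
    by_cases hr : r = 0
    · subst hr
      simp [weightedNorm]
    · have hrK : (r : K) ≠ 0 := by
        intro h; apply hr; exact_mod_cast h
      rw [weightedNorm_eq p _ _ hrK, div_self hP0.ne', one_zpow, mul_one]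
      have h1 : Algebra.norm ℚ (r : K) = ((Algebra.norm ℤ r : ℤ) : ℚ) := by
        rw [← Algebra.coe_norm_int]
      rw [h1]
      push_cast
      rfl
  refine ⟨hP0, ?_, ?_, ?_, ?_⟩
  · intro r
    simp only [hw]
    exact_mod_cast abs_nonneg _
  · intro t ht
    have hsub : (Set.range (fun r : 𝓞 K => weightedNorm p (Ideal.absNorm p.asIdeal : ℝ) (r : K)) ∩
        Set.Icc 0 t) ⊆ (fun n : ℤ => (n : ℝ)) '' (Set.Icc 0 ⌊t⌋) := by
      rintro _ ⟨⟨r, rfl⟩, h1, h2⟩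
      simp only [hw] at h1 h2 ⊢
      refine ⟨|Algebra.norm ℤ r|, ⟨abs_nonneg _, Int.le_floor.mpr h2⟩, rfl⟩
    exact ((Set.finite_Icc 0 ⌊t⌋).image _).subset hsub
  · intro r
    simp only [hw]
    rw [Int.cast_eq_zero, abs_eq_zero, Algebra.norm_eq_zero_iff]
  · intro a b hb
    obtain ⟨q, hq⟩ := heuc a b hb
    refine ⟨q, ?_⟩
    simp only [hw]
    exact_mod_cast hq

end Pool.Agent.H955R3.Window
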