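import Mathlib
import Pool.Agent.H955R3.WindowC

open NumberField IsDedekindDomain
open scoped nonZeroDivisors

namespace Pool.Agent.H955R3.Window

open scoped QuadraticAlgebra

theorem coeO_mul {K : Type*} [Field K] (x y : 𝓞 K) : ((x * y : 𝓞 K) : K) = (x : K) * (y : K) := by
  simp

theorem coeO_sub {K : Type*} [Field K] (x y : 𝓞 K) : ((x - y : 𝓞 K) : K) = (x : K) - (y : K) := by
  simp

theorem coeO_one {K : Type*} [Field K] : ((1 : 𝓞 K) : K) = 1 := by
  simp

/-- The field `ℚ(√2)`. -/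
abbrev F : Type := QuadraticAlgebra ℚ 2 0

instance factF : Fact (∀ r : ℚ, r ^ 2 ≠ 2 + 0 * r) := ⟨by
  intro r hr
  have h1 : (r : ℝ) ^ 2 = 2 := by
    have : r ^ 2 = 2 := by rw [hr]; ring
    exact_mod_cast this
  have h2 : Irrational (√2) := irrational_sqrt_two
  have h3 : √2 = |(r : ℝ)| := by rw [← h1, Real.sqrt_sq_eq_abs]
  apply h2
  exact ⟨|r|, by rw [h3]; push_cast; rfl⟩⟩

instance nfF : NumberField F where
  to_charZero := inferInstance
  to_finiteDimensional := inferInstance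

theorem norm_F (z : F) : Algebra.norm ℚ z = z.re ^ 2 - 2 * z.im ^ 2 := by
  have h : Algebra.norm ℚ z = QuadraticAlgebra.norm z := by
    rw [← QuadraticAlgebra.det_toLinearMap_eq_norm, Algebra.norm_apply]
    congr 1
  rw [h, QuadraticAlgebra.norm_def]
  ring

noncomputable def sig : F →+* ℝ where
  toFun z := (z.re : ℝ) + z.im * √2
  map_one' := by simp [QuadraticAlgebra.re_one, QuadraticAlgebra.im_one]
  map_zero' := by simp
  map_mul' x y := by
    have h : √2 * √2 = (2 : ℝ) := Real.mul_self_sqrt (by norm_num)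
    simp only [QuadraticAlgebra.re_mul, QuadraticAlgebra.im_mul]
    push_cast
    linear_combination -(x.im : ℝ) * y.im * h
  map_add' x y := by
    simp only [QuadraticAlgebra.re_add, QuadraticAlgebra.im_add]
    push_cast
    ring

noncomputable def tau : F →+* ℝ where
  toFun z := (z.re : ℝ) - z.im * √2
  map_one' := by simp [QuadraticAlgebra.re_one, QuadraticAlgebra.im_one]
  map_zero' := by simp
  map_mul' x y := by
    have h : √2 * √2 = (2 : ℝ) := Real.mul_self_sqrt (by norm_num)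
    simp only [QuadraticAlgebra.re_mul, QuadraticAlgebra.im_mul]
    push_cast
    linear_combination -(x.im : ℝ) * y.im * h
  map_add' x y := by
    simp only [QuadraticAlgebra.re_add, QuadraticAlgebra.im_add]
    push_cast
    ring

theorem sig_apply (z : F) : sig z = (z.re : ℝ) + z.im * √2 := rfl
theorem tau_apply (z : F) : tau z = (z.re : ℝ) - z.im * √2 := rfl

theorem norm_sig_tau (x : F) : ((Algebra.norm ℚ x : ℚ) : ℝ) = sig x * tau x := by
  have h : √2 * √2 = (2 : ℝ) := Real.mul_self_sqrt (by norm_num)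
  rw [norm_F, sig_apply, tau_apply]
  push_cast
  linear_combination (x.im : ℝ) ^ 2 * h

/-- `m + n √2` is integral. -/
theorem integral_mk (m n : ℤ) : IsIntegral ℤ (⟨(m : ℚ), (n : ℚ)⟩ : F) := by
  refine ⟨Polynomial.X ^ 2 - Polynomial.C (2 * m) * Polynomial.X + Polynomial.C (m ^ 2 - 2 * n ^ 2), ?_, ?_⟩
  · monicity!
  · simp only [Polynomial.eval₂_add, Polynomial.eval₂_sub, Polynomial.eval₂_mul,
      Polynomial.eval₂_pow, Polynomial.eval₂_X, Polynomial.eval₂_C]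
    have h2 : ((2 : ℤ) : F) = ⟨2, 0⟩ := by ext <;> simp
    have hm : ((m : ℤ) : F) = ⟨(m : ℚ), 0⟩ := by ext <;> simp
    have hn : ((n : ℤ) : F) = ⟨(n : ℚ), 0⟩ := by ext <;> simp
    simp only [map_sub, map_mul, map_pow, eq_intCast, h2, hm, hn]
    ext
    · simp [pow_two]
      ring
    · simp [pow_two]
      ring

/-- the element `m + n √2` of the ring of integers -/
def mkO (m n : ℤ) : 𝓞 F := ⟨(⟨(m : ℚ), (n : ℚ)⟩ : F), integral_mk m n⟩

theorem mkO_coe (m n : ℤ) : ((mkO m n : 𝓞 F) : F) = ⟨(m : ℚ), (n : ℚ)⟩ := rfl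

/-- the unit `3 + 2 √2` -/
def epsF : (𝓞 F)ˣ where
  val := mkO 3 2
  inv := mkO 3 (-2)
  val_inv := by
    apply RingOfIntegers.ext
    rw [coeO_mul, mkO_coe, mkO_coe, coeO_one]
    ext
    · simp; norm_num
    · simp; norm_num
  inv_val := by
    apply RingOfIntegers.ext
    rw [coeO_mul, mkO_coe, mkO_coe, coeO_one]
    ext
    · simp; norm_num
    · simp; norm_num

theorem epsF_coe : (((epsF : (𝓞 F)ˣ) : 𝓞 F) : F) = ⟨3, 2⟩ := by
  show ((mkO 3 2 : 𝓞 F) : F) = _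
  rw [mkO_coe]; simp

theorem F_not_unit : ¬ IsUnit (((epsF : (𝓞 F)ˣ) : 𝓞 F) - 1) := by
  intro h
  have h1 : IsUnit (Algebra.norm ℤ (((epsF : (𝓞 F)ˣ) : 𝓞 F) - 1)) := h.map _
  have h2 : ((Algebra.norm ℤ (((epsF : (𝓞 F)ˣ) : 𝓞 F) - 1) : ℤ) : ℚ) = -4 := by
    rw [Algebra.coe_norm_int, norm_F]
    rw [coeO_sub, coeO_one, epsF_coe]
    simp
    norm_num
  have h3 : Algebra.norm ℤ (((epsF : (𝓞 F)ˣ) : 𝓞 F) - 1) = -4 := by exact_mod_cast h2
  rw [h3] at h1
  rw [Int.isUnit_iff] at h1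
  omega

theorem F_euclid (a b : 𝓞 F) (hb : b ≠ 0) : ∃ q : 𝓞 F,
    |Algebra.norm ℤ (a - b * q)| < |Algebra.norm ℤ b| := by
  have hbK : (b : F) ≠ 0 := by
    intro h; apply hb; exact_mod_cast h
  set ξ : F := (a : F) / (b : F) with hξ
  set m : ℤ := round ξ.re with hm
  set n : ℤ := round ξ.im with hn
  refine ⟨mkO m n, ?_⟩
  have h1 : ((a - b * mkO m n : 𝓞 F) : F) = (b : F) * (ξ - ⟨(m : ℚ), (n : ℚ)⟩) := by
    rw [coeO_sub, coeO_mul, mkO_coe, hξ, mul_sub, mul_div_cancel₀ _ hbK]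
  have h2 : ((|Algebra.norm ℤ (a - b * mkO m n)| : ℤ) : ℚ) =
      |Algebra.norm ℚ (b : F)| * |Algebra.norm ℚ (ξ - ⟨(m : ℚ), (n : ℚ)⟩ : F)| := by
    rw [Int.cast_abs, Algebra.coe_norm_int, h1, map_mul, abs_mul]
  have h3 : ((|Algebra.norm ℤ b| : ℤ) : ℚ) = |Algebra.norm ℚ (b : F)| := by
    rw [Int.cast_abs, Algebra.coe_norm_int]
  have h4 : |Algebra.norm ℚ (ξ - ⟨(m : ℚ), (n : ℚ)⟩ : F)| < 1 := by
    rw [norm_F]
    simp only [QuadraticAlgebra.re_sub, QuadraticAlgebra.im_sub]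
    have e1 : |ξ.re - m| ≤ 1 / 2 := abs_sub_round _
    have e2 : |ξ.im - n| ≤ 1 / 2 := abs_sub_round _
    have e3 : (ξ.re - m) ^ 2 ≤ 1 / 4 := by
      rw [← sq_abs]; nlinarith [abs_nonneg (ξ.re - m)]
    have e4 : (ξ.im - n) ^ 2 ≤ 1 / 4 := by
      rw [← sq_abs]; nlinarith [abs_nonneg (ξ.im - n)]
    rw [abs_lt]
    constructor <;> nlinarith [sq_nonneg (ξ.re - m), sq_nonneg (ξ.im - n)]
  have h5 : 0 < |Algebra.norm ℚ (b : F)| := by
    rw [abs_pos, Ne, Algebra.norm_eq_zero_iff]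
    exact hbK
  have h6 : ((|Algebra.norm ℤ (a - b * mkO m n)| : ℤ) : ℚ) < ((|Algebra.norm ℤ b| : ℤ) : ℚ) := by
    rw [h2, h3]
    nlinarith
  exact_mod_cast h6

theorem isLeast_window_F (p : HeightOneSpectrum (𝓞 F)) :
    IsLeast (window p) (Ideal.absNorm p.asIdeal : ℝ) := by
  refine ⟨absNorm_mem_window F_euclid p, ?_⟩
  intro c hc
  have hs : √2 * √2 = (2 : ℝ) := Real.mul_self_sqrt (by norm_num)
  apply absNorm_le_of_mem_window sig tau norm_sig_tau epsF _ _ F_not_unit p c hc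
  · rw [epsF_coe, sig_apply]
    have : 0 ≤ √2 := Real.sqrt_nonneg 2
    push_cast
    linarith
  · rw [epsF_coe, sig_apply, tau_apply]
    push_cast
    linear_combination -4 * hs

theorem one_lt_absNorm {K : Type*} [Field K] [NumberField K] (p : HeightOneSpectrum (𝓞 K)) :
    (1 : ℝ) < Ideal.absNorm p.asIdeal := by
  have h0 := absNorm_pos p
  have h0' : 0 < Ideal.absNorm p.asIdeal := by exact_mod_cast h0
  have h1 : Ideal.absNorm p.asIdeal ≠ 1 := by
    rw [Ne, Ideal.absNorm_eq_one_iff]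
    exact p.isPrime.ne_top
  have h2 : 1 < Ideal.absNorm p.asIdeal := by omega
  exact_mod_cast h2

theorem not_isOpen_of_isLeast {s : Set ℝ} {a : ℝ} (ha : 1 < a) (h : IsLeast s a) :
    ¬ IsOpen {x : Set.Ioi (1 : ℝ) | (x : ℝ) ∈ s} := by
  intro hopen
  have hemb : Topology.IsOpenEmbedding (Subtype.val : Set.Ioi (1 : ℝ) → ℝ) :=
    isOpen_Ioi.isOpenEmbedding_subtypeVal
  have h1 : IsOpen ((Subtype.val : Set.Ioi (1 : ℝ) → ℝ) '' {x : Set.Ioi (1 : ℝ) | (x : ℝ) ∈ s}) :=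
    hemb.isOpenMap _ hopen
  have hmem : a ∈ (Subtype.val : Set.Ioi (1 : ℝ) → ℝ) '' {x : Set.Ioi (1 : ℝ) | (x : ℝ) ∈ s} :=
    ⟨⟨a, ha⟩, h.1, rfl⟩
  rw [Metric.isOpen_iff] at h1
  obtain ⟨δ, hδ, hball⟩ := h1 a hmem
  have h2 : a - δ / 2 ∈ Metric.ball a δ := by
    rw [Metric.mem_ball, Real.dist_eq]
    have : a - δ / 2 - a = -(δ / 2) := by ring
    rw [this, abs_neg, abs_of_pos (by linarith)]
    linarith
  obtain ⟨x, hx, hxe⟩ := hball h2
  have h3 : a ≤ a - δ / 2 := by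
    rw [← hxe]
    exact h.2 hx
  linarith

theorem rank_F : 1 ≤ NumberField.Units.rank F := by
  unfold NumberField.Units.rank
  have hcard : 1 < Fintype.card (InfinitePlace F) := by
    rw [Fintype.one_lt_card_iff]
    refine ⟨InfinitePlace.mk ((Complex.ofRealHom).comp sig),
      InfinitePlace.mk ((Complex.ofRealHom).comp tau), ?_⟩
    intro h
    have h1 := congrArg (fun w : InfinitePlace F => w (⟨1, 1⟩ : F)) h
    simp only [InfinitePlace.apply, RingHom.comp_apply, sig_apply, tau_apply,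
      Complex.ofRealHom_eq_coe, Complex.norm_real, Real.norm_eq_abs] at h1
    push_cast at h1
    have h2 : 1 < √2 := by
      rw [Real.lt_sqrt] <;> norm_num
    rw [abs_of_pos (by linarith), abs_of_neg (by linarith)] at h1
    linarith
  omega

end Pool.Agent.H955R3.Window
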